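import Mathlib

/-!
# Minors of order two and three of rows given by real polynomials

`cf p j` is the coefficient of `X ^ j` in `p`, for `j : ℤ` (zero for negative `j`).
`mi2 p q i j` and `mi3 p q r i j k` are the minors with rows `p, q (, r)` and columns `i, j (, k)`.
-/

set_option autoImplicit false

open Polynomial Finset

namespace Pool.Agent.EulerTP3

noncomputable section

def cf (p : ℝ[X]) (j : ℤ) : ℝ := if 0 ≤ j then p.coeff j.toNat else 0

lemma cf_add (p q : ℝ[X]) (j : ℤ) : cf (p + q) j = cf p j + cf q j := by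
  unfold cf; split_ifs <;> simp

lemma cf_C_mul (a : ℝ) (p : ℝ[X]) (j : ℤ) : cf (C a * p) j = a * cf p j := by
  unfold cf; split_ifs <;> simp

lemma cf_X_mul (p : ℝ[X]) (j : ℤ) : cf (X * p) j = cf p (j - 1) := by
  unfold cf
  by_cases h : 0 ≤ j
  · rw [if_pos h]
    by_cases h' : 0 ≤ j - 1
    · rw [if_pos h']
      have : j.toNat = (j - 1).toNat + 1 := by omega
      rw [this, coeff_X_mul]
    · rw [if_neg h']
      have : j.toNat = 0 := by omega
      rw [this]
      simp
  · rw [if_neg h, if_neg (by omega)]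

lemma cf_natCast (p : ℝ[X]) (j : ℕ) : cf p (j : ℤ) = p.coeff j := by
  simp [cf]

lemma cf_sum {ι : Type*} (s : Finset ι) (f : ι → ℝ[X]) (j : ℤ) :
    cf (∑ i ∈ s, f i) j = ∑ i ∈ s, cf (f i) j := by
  unfold cf; split_ifs <;> simp

lemma cf_zero (j : ℤ) : cf 0 j = 0 := by simp [cf]

/-- the linear factor `β + α X` -/
def lin (α β : ℝ) : ℝ[X] := C β + C α * X

lemma cf_lin_mul (α β : ℝ) (p : ℝ[X]) (j : ℤ) :
    cf (lin α β * p) j = β * cf p j + α * cf p (j - 1) := by
  have : lin α β * p = C β * p + C α * (X * p) := by unfold lin; ring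
  rw [this, cf_add, cf_C_mul, cf_C_mul, cf_X_mul]

def mi2 (p q : ℝ[X]) (i j : ℤ) : ℝ := cf p i * cf q j - cf p j * cf q i

def mi3 (p q r : ℝ[X]) (i j k : ℤ) : ℝ :=
  cf p i * (cf q j * cf r k - cf q k * cf r j)
    - cf p j * (cf q i * cf r k - cf q k * cf r i)
    + cf p k * (cf q i * cf r j - cf q j * cf r i)

def P2 (p q : ℝ[X]) : Prop := ∀ i j : ℤ, i < j → 0 ≤ mi2 p q i j

def P3 (p q r : ℝ[X]) : Prop := ∀ i j k : ℤ, i < j → j < k → 0 ≤ mi3 p q r i j k

/-- weak version: weakly increasing columns -/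
lemma P2.weak {p q : ℝ[X]} (h : P2 p q) {i j : ℤ} (hij : i ≤ j) : 0 ≤ mi2 p q i j := by
  rcases lt_or_eq_of_le hij with h1 | h1
  · exact h i j h1
  · subst h1; simp [mi2]

lemma P3.weak {p q r : ℝ[X]} (h : P3 p q r) {i j k : ℤ} (hij : i ≤ j) (hjk : j ≤ k) :
    0 ≤ mi3 p q r i j k := by
  rcases lt_or_eq_of_le hij with h1 | h1
  · rcases lt_or_eq_of_le hjk with h2 | h2
    · exact h i j k h1 h2
    · subst h2
      have : mi3 p q r i j j = 0 := by unfold mi3; ring
      rw [this]
  · subst h1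
    have : mi3 p q r i i k = 0 := by unfold mi3; ring
    rw [this]

lemma P2.lin_mul {p q : ℝ[X]} (h : P2 p q) {α β : ℝ} (hα : 0 ≤ α) (hβ : 0 ≤ β) :
    P2 (lin α β * p) (lin α β * q) := by
  intro i j hij
  have e : mi2 (lin α β * p) (lin α β * q) i j
      = β * β * mi2 p q i j + β * α * mi2 p q i (j - 1) + α * β * mi2 p q (i - 1) j
        + α * α * mi2 p q (i - 1) (j - 1) := by
    unfold mi2
    simp only [cf_lin_mul]
    ring
  rw [e]
  have h1 := h.weak (i := i) (j := j) (by omega)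
  have h2 := h.weak (i := i) (j := j - 1) (by omega)
  have h3 := h.weak (i := i - 1) (j := j) (by omega)
  have h4 := h.weak (i := i - 1) (j := j - 1) (by omega)
  positivity

lemma P3.lin_mul {p q r : ℝ[X]} (h : P3 p q r) {α β : ℝ} (hα : 0 ≤ α) (hβ : 0 ≤ β) :
    P3 (lin α β * p) (lin α β * q) (lin α β * r) := by
  intro i j k hij hjk
  have e : mi3 (lin α β * p) (lin α β * q) (lin α β * r) i j k
      = β * β * β * mi3 p q r i j k + β * β * α * mi3 p q r i j (k - 1)
        + β * α * β * mi3 p q r i (j - 1) k + β * α * α * mi3 p q r i (j - 1) (k - 1)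
        + α * β * β * mi3 p q r (i - 1) j k + α * β * α * mi3 p q r (i - 1) j (k - 1)
        + α * α * β * mi3 p q r (i - 1) (j - 1) k
        + α * α * α * mi3 p q r (i - 1) (j - 1) (k - 1) := by
    unfold mi3
    simp only [cf_lin_mul]
    ring
  rw [e]
  have h1 := h.weak (i := i) (j := j) (k := k) (by omega) (by omega)
  have h2 := h.weak (i := i) (j := j) (k := k - 1) (by omega) (by omega)
  have h3 := h.weak (i := i) (j := j - 1) (k := k) (by omega) (by omega)
  have h4 := h.weak (i := i) (j := j - 1) (k := k - 1) (by omega) (by omega)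
  have h5 := h.weak (i := i - 1) (j := j) (k := k) (by omega) (by omega)
  have h6 := h.weak (i := i - 1) (j := j) (k := k - 1) (by omega) (by omega)
  have h7 := h.weak (i := i - 1) (j := j - 1) (k := k) (by omega) (by omega)
  have h8 := h.weak (i := i - 1) (j := j - 1) (k := k - 1) (by omega) (by omega)
  positivity

lemma cf_X_pow (a : ℕ) (j : ℤ) : cf ((X : ℝ[X]) ^ a) j = if j = a then 1 else 0 := by
  unfold cf
  by_cases h : 0 ≤ j
  · rw [if_pos h, coeff_X_pow]
    congr 1
    apply propext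
    constructor <;> intro h' <;> omega
  · rw [if_neg h, if_neg (by omega)]

lemma P2_X_pow (a b : ℕ) (hab : a < b) : P2 ((X : ℝ[X]) ^ a) (X ^ b) := by
  intro i j hij
  unfold mi2
  simp only [cf_X_pow]
  split_ifs <;> first | omega | norm_num

lemma P3_X_pow (a b c : ℕ) (hab : a < b) (hbc : b < c) : P3 ((X : ℝ[X]) ^ a) (X ^ b) (X ^ c) := by
  intro i j k hij hjk
  unfold mi3
  simp only [cf_X_pow]
  split_ifs <;> first | omega | norm_num

/-- product of linear factors -/
def pr (α β : ℕ → ℝ) (s : Finset ℕ) : ℝ[X] := ∏ l ∈ s, lin (α l) (β l)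

lemma P2_pr (α β : ℕ → ℝ) (s : Finset ℕ) (hα : ∀ l ∈ s, 0 ≤ α l) (hβ : ∀ l ∈ s, 0 ≤ β l)
    (a b : ℕ) (hab : a < b) : P2 (X ^ a * pr α β s) (X ^ b * pr α β s) := by
  induction s using Finset.induction_on with
  | empty => simpa [pr] using P2_X_pow a b hab
  | insert l s hl ih =>
    have := (ih (fun m hm => hα m (Finset.mem_insert_of_mem hm))
      (fun m hm => hβ m (Finset.mem_insert_of_mem hm))).lin_mul
      (hα l (Finset.mem_insert_self _ _)) (hβ l (Finset.mem_insert_self _ _))
    unfold pr at this ⊢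
    rw [Finset.prod_insert hl]
    convert this using 1 <;> ring

lemma P3_pr (α β : ℕ → ℝ) (s : Finset ℕ) (hα : ∀ l ∈ s, 0 ≤ α l) (hβ : ∀ l ∈ s, 0 ≤ β l)
    (a b c : ℕ) (hab : a < b) (hbc : b < c) :
    P3 (X ^ a * pr α β s) (X ^ b * pr α β s) (X ^ c * pr α β s) := by
  induction s using Finset.induction_on with
  | empty => simpa [pr] using P3_X_pow a b c hab hbc
  | insert l s hl ih =>
    have := (ih (fun m hm => hα m (Finset.mem_insert_of_mem hm))
      (fun m hm => hβ m (Finset.mem_insert_of_mem hm))).lin_mul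
      (hα l (Finset.mem_insert_self _ _)) (hβ l (Finset.mem_insert_self _ _))
    unfold pr at this ⊢
    rw [Finset.prod_insert hl]
    convert this using 1 <;> ring

end

end Pool.Agent.EulerTP3
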