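import Pool.Agent.EulerTP3.Final

set_option autoImplicit false

open Polynomial Finset

namespace Pool.Agent.EulerTP3

section
variable (ρ : ℕ) (E : ℕ → ℕ → ℤ)
  (h0 : ∀ k : ℕ, E 0 k = if k = 0 then 1 else 0)
  (h1 : ∀ n : ℕ, E (n + 1) 0 = E n 0)
  (h2 : ∀ n k : ℕ, E (n + 1) (k + 1) =
            ((k : ℤ) + 2) * E n (k + 1) + (((ρ + 1 : ℕ) : ℤ) * (n : ℤ) - (k : ℤ)) * E n k)

include h0 h2 in
lemma E_vanish (n k : ℕ) (hk : n + 1 ≤ k) : E (n + 1) k = 0 := by
  induction n generalizing k with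
  | zero =>
    obtain ⟨j, rfl⟩ : ∃ j, k = j + 1 := ⟨k - 1, by omega⟩
    rw [h2, h0, h0, if_neg (by omega)]
    by_cases hj : j = 0
    · subst hj; simp
    · rw [if_neg hj]; simp
  | succ n ih =>
    obtain ⟨j, rfl⟩ : ∃ j, k = j + 1 := ⟨k - 1, by omega⟩
    rw [h2, ih (j + 1) (by omega), ih j (by omega)]
    simp

include h0 h1 h2 in
lemma E_eq (n j : ℕ) (hj : j ≤ n) : ((E (n + 1) (n - j) : ℤ) : ℝ) = cf (R ρ n) j := by
  induction n generalizing j with
  | zero =>
    have : j = 0 := by omega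
    subst this
    rw [h1, h0, cf_R_zero]
    simp
  | succ n ih =>
    rw [cf_R_succ]
    rcases Nat.lt_or_ge n j with h | h
    · have : j = n + 1 := by omega
      subst this
      have e := ih n le_rfl
      simp only [Nat.sub_self] at e ⊢
      rw [h1, e, cf_R_vanish ρ n ((n + 1 : ℕ) : ℤ) (by push_cast; omega)]
      have : ((n + 1 : ℕ) : ℤ) - 1 = n := by push_cast; ring
      rw [this]
      push_cast
      ring
    · have e0 : n + 1 - j = (n - j) + 1 := by omega
      rw [e0, h2]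
      have e1 := ih j h
      have cst : ((n - j : ℕ) : ℝ) = (n : ℝ) - j := Nat.cast_sub h
      push_cast
      rw [e1, cst]
      have e2 : ((E (n + 1) (n - j + 1) : ℤ) : ℝ) = cf (R ρ n) ((j : ℤ) - 1) := by
        cases j with
        | zero =>
          rw [E_vanish ρ E h0 h2 n (n - 0 + 1) (by omega), cf_R_vanish ρ n _ (by simp)]
          simp
        | succ j =>
          have : n - (j + 1) + 1 = n - j := by omega
          rw [this, ih j (by omega)]
          congr 1
          push_cast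
          ring
      rw [e2]
      ring

include h0 h1 h2 in
lemma entry (a b : ℕ) (ha : a ≠ 0) :
    (((if b + 1 ≤ a then E a (a - b - 1) else 0 : ℤ)) : ℝ) = cf (R ρ (a - 1)) b := by
  obtain ⟨n, rfl⟩ : ∃ n, a = n + 1 := ⟨a - 1, by omega⟩
  rw [Nat.add_sub_cancel]
  by_cases h : b ≤ n
  · rw [if_pos (by omega), ← E_eq ρ E h0 h1 h2 n b h]
    congr 2
    omega
  · rw [if_neg (by omega), cf_R_vanish ρ n b (Or.inr (by omega))]
    simp

end

end Pool.Agent.EulerTP3
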