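import Pool.Agent.EulerTP3.Rows

set_option autoImplicit false

open Polynomial Finset

namespace Pool.Agent.EulerTP3

noncomputable section

/-! ### Coefficients of the rows -/

lemma cf_R_zero (ρ : ℕ) (j : ℤ) : cf (R ρ 0) j = if j = 0 then 1 else 0 := by
  have : R ρ 0 = X ^ 0 := by simp [R]
  rw [this, cf_X_pow]
  simp

lemma cf_deriv (p : ℝ[X]) (j : ℤ) : cf (X * derivative p) j = (j : ℝ) * cf p j := by
  rcases lt_or_ge j 0 with h | h
  · unfold cf
    rw [if_neg (by omega), if_neg (by omega)]
    simp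
  · obtain ⟨k, rfl⟩ := Int.eq_ofNat_of_zero_le h
    rw [cf_natCast, cf_natCast]
    cases k with
    | zero => simp
    | succ k =>
      rw [coeff_X_mul, coeff_derivative]
      push_cast
      ring

lemma cf_neg (p : ℝ[X]) (j : ℤ) : cf (-p) j = -cf p j := by
  unfold cf; split_ifs <;> simp

lemma cf_R_succ (ρ n : ℕ) (j : ℤ) : cf (R ρ (n + 1)) j
    = (1 + (ρ : ℝ) * (n + 1) + j) * cf (R ρ n) j + ((n : ℝ) + 2 - j) * cf (R ρ n) (j - 1) := by
  have e : R ρ (n + 1) = C (1 + (ρ : ℝ) * (n + 1)) * R ρ n + X * derivative (R ρ n)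
      + -(X * (X * derivative (R ρ n))) + C ((n : ℝ) + 1) * (X * R ρ n) := by
    rw [R]; ring
  rw [e, cf_add, cf_add, cf_add, cf_C_mul, cf_C_mul, cf_neg, cf_deriv, cf_X_mul (X * _), cf_deriv,
    cf_X_mul]
  push_cast
  ring

/-- support: nonnegative, positive exactly for `0 ≤ j ≤ n`. -/
lemma cf_R_vanish (ρ n : ℕ) (j : ℤ) (hj : j < 0 ∨ (n : ℤ) < j) : cf (R ρ n) j = 0 := by
  induction n generalizing j with
  | zero =>
    rw [cf_R_zero, if_neg]
    rcases hj with h | h
    · omega
    · push_cast at h; omega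
  | succ n ih =>
    rw [cf_R_succ]
    push_cast at hj
    rw [ih j (by omega)]
    by_cases h : j = n + 2
    · subst h
      push_cast
      ring
    · rw [ih (j - 1) (by omega)]
      ring

lemma cf_R_pos (ρ n : ℕ) (j : ℤ) (h0 : 0 ≤ j) (h1 : j ≤ n) : 0 < cf (R ρ n) j := by
  induction n generalizing j with
  | zero =>
    rw [cf_R_zero, if_pos (by push_cast at h1; omega)]
    norm_num
  | succ n ih =>
    rw [cf_R_succ]
    push_cast at h1
    have hj0 : (0 : ℝ) ≤ j := by exact_mod_cast h0
    have hj1 : (j : ℝ) ≤ n + 1 := by exact_mod_cast h1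
    have hc : (0 : ℝ) < 1 + (ρ : ℝ) * (n + 1) + j := by positivity
    have hd : (0 : ℝ) < (n : ℝ) + 2 - j := by linarith
    by_cases h2 : j ≤ n
    · have p1 := ih j h0 h2
      have p2 : 0 ≤ cf (R ρ n) (j - 1) := by
        by_cases h3 : j = 0
        · rw [cf_R_vanish ρ n (j - 1) (by omega)]
        · exact (ih (j - 1) (by omega) (by omega)).le
      have := mul_pos hc p1
      have := mul_nonneg hd.le p2
      linarith
    · have p1 : cf (R ρ n) j = 0 := cf_R_vanish ρ n j (by omega)
      have p2 := ih (j - 1) (by omega) (by omega)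
      rw [p1]
      have := mul_pos hd p2
      linarith

/-! ### Consecutive rows -/

lemma B1 (α β : ℝ) (w : ℝ[X]) (i j : ℤ) :
    mi2 (lin α β * w) (X * w) i j = β * mi2 w (X * w) i j := by
  unfold mi2
  simp only [cf_lin_mul, cf_X_mul]
  ring

lemma strict_pr (α β : ℕ → ℝ) (s : Finset ℕ) (hα : ∀ l ∈ s, 0 < α l) (hβ : ∀ l ∈ s, 0 < β l)
    (i j : ℤ) (hi : 0 ≤ i) (hij : i < j) (hj : j ≤ s.card + 1) :
    0 < mi2 (pr α β s) (X * pr α β s) i j := by
  induction s using Finset.induction_on generalizing i j with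
  | empty =>
    have e : pr α β ∅ = X ^ 0 := by simp [pr]
    have h1 : i = 0 := by simp at hj; omega
    have h2 : j = 1 := by simp at hj; omega
    subst h1 h2
    rw [e]
    unfold mi2
    simp only [cf_X_mul, cf_X_pow]
    norm_num
  | insert l s hl ih =>
    have hα' : ∀ m ∈ s, 0 < α m := fun m hm => hα m (Finset.mem_insert_of_mem hm)
    have hβ' : ∀ m ∈ s, 0 < β m := fun m hm => hβ m (Finset.mem_insert_of_mem hm)
    have a := hα l (Finset.mem_insert_self _ _)
    have b := hβ l (Finset.mem_insert_self _ _)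
    have hP : P2 (pr α β s) (X * pr α β s) := by
      have := P2_pr α β s (fun m hm => (hα' m hm).le) (fun m hm => (hβ' m hm).le) 0 1 (by norm_num)
      simpa using this
    rw [card_insert_of_notMem hl] at hj
    push_cast at hj
    have e : mi2 (pr α β (insert l s)) (X * pr α β (insert l s)) i j
        = β l * β l * mi2 (pr α β s) (X * pr α β s) i j
          + β l * α l * mi2 (pr α β s) (X * pr α β s) i (j - 1)
          + α l * β l * mi2 (pr α β s) (X * pr α β s) (i - 1) j
          + α l * α l * mi2 (pr α β s) (X * pr α β s) (i - 1) (j - 1) := by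
      have e0 : pr α β (insert l s) = lin (α l) (β l) * pr α β s := by
        unfold pr; rw [Finset.prod_insert hl]
      have e1 : X * (lin (α l) (β l) * pr α β s) = lin (α l) (β l) * (X * pr α β s) := by ring
      rw [e0, e1]
      unfold mi2
      simp only [cf_lin_mul]
      ring
    rw [e]
    have w1 := hP.weak (i := i) (j := j) (by omega)
    have w2 := hP.weak (i := i) (j := j - 1) (by omega)
    have w3 := hP.weak (i := i - 1) (j := j) (by omega)
    have w4 := hP.weak (i := i - 1) (j := j - 1) (by omega)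
    by_cases h1 : j ≤ s.card + 1
    · have s1 := ih hα' hβ' i j hi hij h1
      have t1 : 0 < β l * β l * mi2 (pr α β s) (X * pr α β s) i j := by positivity
      have t2 : 0 ≤ β l * α l * mi2 (pr α β s) (X * pr α β s) i (j - 1) := by positivity
      have t3 : 0 ≤ α l * β l * mi2 (pr α β s) (X * pr α β s) (i - 1) j := by positivity
      have t4 : 0 ≤ α l * α l * mi2 (pr α β s) (X * pr α β s) (i - 1) (j - 1) := by positivity
      linarith
    · by_cases h2 : i < j - 1
      · have s2 := ih hα' hβ' i (j - 1) hi h2 (by omega)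
        have t1 : 0 ≤ β l * β l * mi2 (pr α β s) (X * pr α β s) i j := by positivity
        have t2 : 0 < β l * α l * mi2 (pr α β s) (X * pr α β s) i (j - 1) := by positivity
        have t3 : 0 ≤ α l * β l * mi2 (pr α β s) (X * pr α β s) (i - 1) j := by positivity
        have t4 : 0 ≤ α l * α l * mi2 (pr α β s) (X * pr α β s) (i - 1) (j - 1) := by positivity
        linarith
      · have s4 := ih hα' hβ' (i - 1) (j - 1) (by omega) (by omega) (by omega)
        have t1 : 0 ≤ β l * β l * mi2 (pr α β s) (X * pr α β s) i j := by positivity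
        have t2 : 0 ≤ β l * α l * mi2 (pr α β s) (X * pr α β s) i (j - 1) := by positivity
        have t3 : 0 ≤ α l * β l * mi2 (pr α β s) (X * pr α β s) (i - 1) j := by positivity
        have t4 : 0 < α l * α l * mi2 (pr α β s) (X * pr α β s) (i - 1) (j - 1) := by positivity
        linarith

lemma mi2_C_mul (a b : ℝ) (p q : ℝ[X]) (i j : ℤ) :
    mi2 (C a * p) (C b * q) i j = a * b * mi2 p q i j := by
  unfold mi2; simp only [cf_C_mul]; ring

/-- two consecutive rows -/
lemma cons2 (ρ n : ℕ) (i j : ℤ) (hi : 0 ≤ i) (hij : i < j) (hj : j ≤ n + 1) :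
    0 < mi2 (R ρ n) (R ρ (n + 1)) i j := by
  obtain ⟨κ, θ, h⟩ := fac_exists ρ n
  have hs := step1 h
  obtain ⟨hκ, h1, h2, hR⟩ := h
  have hα : ∀ l ∈ range (n + 1), 0 ≤ 1 - θ l := by
    intro l hl
    have := Finset.mem_range.1 hl
    rcases Nat.lt_or_ge l n with h3 | h3
    · linarith [(h1 l h3).2]
    · have : l = n := by omega
      rw [this, h2]; norm_num
  have hβ : ∀ l ∈ range (n + 1), 0 ≤ θ l := by
    intro l hl
    have := Finset.mem_range.1 hl
    rcases Nat.lt_or_ge l n with h3 | h3
    · exact (h1 l h3).1.le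
    · have : l = n := by omega
      rw [this, h2]; norm_num
  have e1 : mi2 (R ρ n) (R ρ (n + 1)) i j
      = κ * κ * mi2 (pr (fun l => 1 - θ l) θ (range (n + 1)))
        (X * D1 (fun l => 1 - θ l) θ (range (n + 1))) i j := by
    rw [hs, hR, mi2_C_mul, mi2_add_right]
    have : mi2 (pr (fun l => 1 - θ l) θ (range (n + 1)))
        (C (1 + (ρ : ℝ) * (n + 1)) * pr (fun l => 1 - θ l) θ (range (n + 1))) i j = 0 := by
      unfold mi2; simp only [cf_C_mul]; ring
    rw [this]
    ring
  have e2 : mi2 (pr (fun l => 1 - θ l) θ (range (n + 1)))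
        (X * D1 (fun l => 1 - θ l) θ (range (n + 1))) i j
      = ∑ l ∈ range (n + 1), θ l * mi2 (pr (fun l => 1 - θ l) θ ((range (n + 1)).erase l))
          (X * pr (fun l => 1 - θ l) θ ((range (n + 1)).erase l)) i j := by
    unfold D1
    rw [Finset.mul_sum, mi2_sum_right]
    apply Finset.sum_congr rfl
    intro l hl
    rw [pr_erase (fun l => 1 - θ l) θ (range (n + 1)) l hl, B1]
  rw [e1, e2]
  have e3 : 0 < ∑ l ∈ range (n + 1), θ l * mi2 (pr (fun l => 1 - θ l) θ ((range (n + 1)).erase l))
          (X * pr (fun l => 1 - θ l) θ ((range (n + 1)).erase l)) i j := by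
    apply Finset.sum_pos'
    · intro l hl
      apply mul_nonneg (hβ l hl)
      have := P2_pr (fun l => 1 - θ l) θ ((range (n + 1)).erase l)
        (fun m hm => hα m (Finset.mem_of_mem_erase hm)) (fun m hm => hβ m (Finset.mem_of_mem_erase hm))
        0 1 (by norm_num)
      simp only [pow_zero, one_mul, pow_one] at this
      exact this i j hij
    · refine ⟨n, Finset.mem_range.2 (Nat.lt_succ_self n), ?_⟩
      have hr : (range (n + 1)).erase n = range n := by
        rw [Finset.range_add_one]
        exact Finset.erase_insert (by simp)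
      rw [hr, h2, one_mul]
      apply strict_pr
      · intro l hl
        linarith [(h1 l (Finset.mem_range.1 hl)).2]
      · intro l hl
        exact (h1 l (Finset.mem_range.1 hl)).1
      · exact hi
      · exact hij
      · rw [card_range]; exact hj
  positivity

/-- three consecutive rows -/
lemma cons3 (ρ n : ℕ) : P3 (R ρ n) (R ρ (n + 1)) (R ρ (n + 2)) := by
  obtain ⟨κ, θ, h⟩ := fac_exists ρ n
  have hs1 := step1 h
  have hs2 := step2 h
  obtain ⟨hκ, h1, h2, hR⟩ := h
  have hα : ∀ l ∈ range (n + 1), 0 ≤ 1 - θ l := by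
    intro l hl
    have := Finset.mem_range.1 hl
    rcases Nat.lt_or_ge l n with h3 | h3
    · linarith [(h1 l h3).2]
    · have : l = n := by omega
      rw [this, h2]; norm_num
  have hβ : ∀ l ∈ range (n + 1), 0 ≤ θ l := by
    intro l hl
    have := Finset.mem_range.1 hl
    rcases Nat.lt_or_ge l n with h3 | h3
    · exact (h1 l h3).1.le
    · have : l = n := by omega
      rw [this, h2]; norm_num
  intro i j k hij hjk
  have hm := main3 (fun l => 1 - θ l) θ (range (n + 1)) hα hβ (1 + (ρ : ℝ) * (n + 1)) (by positivity)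
    i j k hij hjk
  have e : mi3 (R ρ n) (R ρ (n + 1)) (R ρ (n + 2)) i j k
      = κ * κ * κ * mi3 (pr (fun l => 1 - θ l) θ (range (n + 1)))
        (X * D1 (fun l => 1 - θ l) θ (range (n + 1)))
        (C (1 + (ρ : ℝ) * (n + 1)) * (X * pr (fun l => 1 - θ l) θ (range (n + 1)))
          + X ^ 2 * D1 (fun l => 1 - θ l) θ (range (n + 1))
          + X ^ 2 * D2 (fun l => 1 - θ l) θ (range (n + 1))) i j k := by
    rw [hs1, hs2, hR]
    generalize pr (fun l => 1 - θ l) θ (range (n + 1)) = u
    generalize X * D1 (fun l => 1 - θ l) θ (range (n + 1)) = d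
    generalize C (1 + (ρ : ℝ) * (n + 1)) * (X * u)
          + X ^ 2 * D1 (fun l => 1 - θ l) θ (range (n + 1))
          + X ^ 2 * D2 (fun l => 1 - θ l) θ (range (n + 1)) = g
    unfold mi3
    simp only [cf_C_mul, cf_add]
    ring
  rw [e]
  positivity

/-! ### Arbitrary rows -/

/-- all `2 × 2` minors in the support range are positive -/
lemma gen2 (ρ n : ℕ) (d : ℕ) (i j : ℤ) (hi : 0 ≤ i) (hin : i ≤ n) (hij : i < j)
    (hj : j ≤ n + d + 1) : 0 < mi2 (R ρ n) (R ρ (n + d + 1)) i j := by
  induction d with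
  | zero => exact cons2 ρ n i j hi hij (by simpa using hj)
  | succ d ih =>
    by_cases hj' : j ≤ n + d + 1
    · have a := ih hj'
      have b := cons2 ρ (n + d + 1) i j hi hij (by push_cast; omega)
      have c1 := cf_R_pos ρ (n + d + 1) i hi (by push_cast; omega)
      have c0 := cf_R_pos ρ n i hi hin
      have c2 := cf_R_pos ρ (n + d + 1 + 1) i hi (by push_cast; omega)
      have key : mi2 (R ρ n) (R ρ (n + (d + 1) + 1)) i j * cf (R ρ (n + d + 1)) i
          = mi2 (R ρ n) (R ρ (n + d + 1)) i j * cf (R ρ (n + d + 1 + 1)) i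
            + mi2 (R ρ (n + d + 1)) (R ρ (n + d + 1 + 1)) i j * cf (R ρ n) i := by
        have : n + (d + 1) + 1 = n + d + 1 + 1 := by ring
        rw [this]
        unfold mi2
        ring
      have : 0 < mi2 (R ρ n) (R ρ (n + (d + 1) + 1)) i j * cf (R ρ (n + d + 1)) i := by
        rw [key]; positivity
      exact (pos_iff_pos_of_mul_pos this).2 c1
    · -- j = n + d + 2, the first row vanishes in column j
      have hjj : j = n + d + 2 := by push_cast at hj; omega
      have z : cf (R ρ n) j = 0 := cf_R_vanish ρ n j (by omega)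
      have c0 := cf_R_pos ρ n i hi hin
      have c2 := cf_R_pos ρ (n + (d + 1) + 1) j (by omega) (by push_cast; omega)
      unfold mi2
      rw [z]
      have := mul_pos c0 c2
      linarith

/-- all `2 × 2` minors are nonnegative -/
lemma all2 (ρ a b : ℕ) (hab : a < b) (i j : ℤ) (hij : i < j) :
    0 ≤ mi2 (R ρ a) (R ρ b) i j := by
  obtain ⟨d, rfl⟩ : ∃ d, b = a + d + 1 := ⟨b - a - 1, by omega⟩
  by_cases h1 : i < 0
  · unfold mi2
    rw [cf_R_vanish ρ a i (Or.inl h1), cf_R_vanish ρ _ i (Or.inl h1)]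
    simp
  by_cases h2 : (a : ℤ) < i
  · unfold mi2
    rw [cf_R_vanish ρ a i (Or.inr h2), cf_R_vanish ρ a j (Or.inr (by omega))]
    simp
  by_cases h3 : (((a + d + 1 : ℕ)) : ℤ) < j
  · unfold mi2
    rw [cf_R_vanish ρ _ j (Or.inr h3), cf_R_vanish ρ a j (Or.inr (by push_cast at h3; omega))]
    simp
  · exact (gen2 ρ a d i j (by omega) (by omega) hij (by push_cast at h3; omega)).le

lemma gen2' (ρ a b : ℕ) (hab : a < b) (i j : ℤ) (hi : 0 ≤ i) (hia : i ≤ a) (hij : i < j)
    (hjb : j ≤ b) : 0 < mi2 (R ρ a) (R ρ b) i j := by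
  obtain ⟨d, rfl⟩ : ∃ d, b = a + d + 1 := ⟨b - a - 1, by omega⟩
  exact gen2 ρ a d i j hi hia hij (by push_cast at hjb; omega)

/-- Pluecker relation, gap on the right -/
lemma plucker_right (a b c d : ℝ[X]) (i j k : ℤ) :
    mi3 a b d i j k * mi2 b c i j = mi3 a b c i j k * mi2 b d i j + mi3 b c d i j k * mi2 a b i j := by
  unfold mi2 mi3; ring

/-- Pluecker relation, gap on the left -/
lemma plucker_left (a b c d : ℝ[X]) (i j k : ℤ) :
    mi3 a c d i j k * mi2 b c i j = mi3 a b c i j k * mi2 c d i j + mi3 b c d i j k * mi2 a c i j := by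
  unfold mi2 mi3; ring

/-- all `3 × 3` minors are nonnegative -/
lemma all3 (ρ : ℕ) (N : ℕ) : ∀ a b c : ℕ, a < b → b < c → c ≤ a + N →
    P3 (R ρ a) (R ρ b) (R ρ c) := by
  induction N using Nat.strong_induction_on with
  | _ N ih =>
    intro a b c hab hbc hN i j k hij hjk
    by_cases h1 : i < 0
    · unfold mi3
      rw [cf_R_vanish ρ a i (Or.inl h1), cf_R_vanish ρ b i (Or.inl h1),
        cf_R_vanish ρ c i (Or.inl h1)]
      simp
    by_cases h2 : (a : ℤ) < i
    · unfold mi3
      rw [cf_R_vanish ρ a i (Or.inr h2), cf_R_vanish ρ a j (Or.inr (by omega)),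
        cf_R_vanish ρ a k (Or.inr (by omega))]
      simp
    by_cases h3 : (b : ℤ) < j
    · unfold mi3
      rw [cf_R_vanish ρ a j (Or.inr (by omega)), cf_R_vanish ρ a k (Or.inr (by omega)),
        cf_R_vanish ρ b j (Or.inr h3), cf_R_vanish ρ b k (Or.inr (by omega))]
      simp
    by_cases hg1 : a + 1 < b
    · -- insert the row `a + 1`
      have p := gen2' ρ (a + 1) b hg1 i j (by omega) (by push_cast; omega) hij (by omega)
      have q1 := gen2' ρ b c hbc i j (by omega) (by omega) hij (by omega)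
      have q2 := gen2' ρ a b hab i j (by omega) (by omega) hij (by omega)
      have r1 : 0 ≤ mi3 (R ρ a) (R ρ (a + 1)) (R ρ b) i j k :=
        ih (b - a) (by omega) a (a + 1) b (by omega) hg1 (by omega) i j k hij hjk
      have r2 : 0 ≤ mi3 (R ρ (a + 1)) (R ρ b) (R ρ c) i j k :=
        ih (c - (a + 1)) (by omega) (a + 1) b c hg1 hbc (by omega) i j k hij hjk
      have key := plucker_left (R ρ a) (R ρ (a + 1)) (R ρ b) (R ρ c) i j k
      have : 0 ≤ mi3 (R ρ a) (R ρ b) (R ρ c) i j k * mi2 (R ρ (a + 1)) (R ρ b) i j := by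
        rw [key]; positivity
      exact nonneg_of_mul_nonneg_left this p
    · by_cases hg2 : b + 1 < c
      · have p := gen2' ρ b (b + 1) (by omega) i j (by omega) (by omega) hij (by push_cast; omega)
        have q1 := gen2' ρ b c hbc i j (by omega) (by omega) hij (by omega)
        have q2 := gen2' ρ a b hab i j (by omega) (by omega) hij (by omega)
        have r1 : 0 ≤ mi3 (R ρ a) (R ρ b) (R ρ (b + 1)) i j k :=
          ih (b + 1 - a) (by omega) a b (b + 1) hab (by omega) (by omega) i j k hij hjk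
        have r2 : 0 ≤ mi3 (R ρ b) (R ρ (b + 1)) (R ρ c) i j k :=
          ih (c - b) (by omega) b (b + 1) c (by omega) hg2 (by omega) i j k hij hjk
        have key := plucker_right (R ρ a) (R ρ b) (R ρ (b + 1)) (R ρ c) i j k
        have : 0 ≤ mi3 (R ρ a) (R ρ b) (R ρ c) i j k * mi2 (R ρ b) (R ρ (b + 1)) i j := by
          rw [key]; positivity
        exact nonneg_of_mul_nonneg_left this p
      · have e1 : b = a + 1 := by omega
        have e2 : c = a + 2 := by omega
        subst e1 e2
        exact cons3 ρ a i j k hij hjk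

end

end Pool.Agent.EulerTP3
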