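import Pool.Agent.EulerTP3.Local

set_option autoImplicit false

open Polynomial Finset

namespace Pool.Agent.EulerTP3

noncomputable section

lemma mi3_add_mid (p q q' r : ℝ[X]) (i j k : ℤ) :
    mi3 p (q + q') r i j k = mi3 p q r i j k + mi3 p q' r i j k := by
  unfold mi3; simp only [cf_add]; ring

lemma mi3_add_right (p q r r' : ℝ[X]) (i j k : ℤ) :
    mi3 p q (r + r') i j k = mi3 p q r i j k + mi3 p q r' i j k := by
  unfold mi3; simp only [cf_add]; ring

lemma mi3_C_right (a : ℝ) (p q r : ℝ[X]) (i j k : ℤ) :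
    mi3 p q (C a * r) i j k = a * mi3 p q r i j k := by
  unfold mi3; simp only [cf_C_mul]; ring

lemma mi3_sum_mid {ι : Type*} (s : Finset ι) (f : ι → ℝ[X]) (p r : ℝ[X]) (i j k : ℤ) :
    mi3 p (∑ a ∈ s, f a) r i j k = ∑ a ∈ s, mi3 p (f a) r i j k := by
  classical
  induction s using Finset.induction_on with
  | empty => simp [mi3, cf_zero]
  | insert a s ha ih => rw [sum_insert ha, sum_insert ha, mi3_add_mid, ih]

lemma mi3_sum_right {ι : Type*} (s : Finset ι) (f : ι → ℝ[X]) (p q : ℝ[X]) (i j k : ℤ) :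
    mi3 p q (∑ a ∈ s, f a) i j k = ∑ a ∈ s, mi3 p q (f a) i j k := by
  classical
  induction s using Finset.induction_on with
  | empty => simp [mi3, cf_zero]
  | insert a s ha ih => rw [sum_insert ha, sum_insert ha, mi3_add_right, ih]

lemma mi2_add_right (p q q' : ℝ[X]) (i j : ℤ) :
    mi2 p (q + q') i j = mi2 p q i j + mi2 p q' i j := by
  unfold mi2; simp only [cf_add]; ring

lemma mi2_sum_right {ι : Type*} (s : Finset ι) (f : ι → ℝ[X]) (p : ℝ[X]) (i j : ℤ) :
    mi2 p (∑ a ∈ s, f a) i j = ∑ a ∈ s, mi2 p (f a) i j := by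
  classical
  induction s using Finset.induction_on with
  | empty => simp [mi2, cf_zero]
  | insert a s ha ih => rw [sum_insert ha, sum_insert ha, mi2_add_right, ih]

/-- `Σ_l Π_{l' ≠ l}` -/
def D1 (α β : ℕ → ℝ) (s : Finset ℕ) : ℝ[X] := ∑ l ∈ s, pr α β (s.erase l)

/-- `Σ_l Σ_{m ≠ l} Π_{l' ≠ l, m}` -/
def D2 (α β : ℕ → ℝ) (s : Finset ℕ) : ℝ[X] := ∑ l ∈ s, D1 α β (s.erase l)

lemma pr_erase (α β : ℕ → ℝ) (s : Finset ℕ) (l : ℕ) (hl : l ∈ s) :
    pr α β s = lin (α l) (β l) * pr α β (s.erase l) := by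
  unfold pr
  rw [Finset.mul_prod_erase s (fun l => lin (α l) (β l)) hl]

variable (α β : ℕ → ℝ) (s : Finset ℕ) (hα : ∀ l ∈ s, 0 ≤ α l) (hβ : ∀ l ∈ s, 0 ≤ β l)

include hα hβ

lemma tz_nonneg (t : Finset ℕ) (ht : t ⊆ s) (a b c : ℕ) (hab : a < b) (hbc : b < c)
    (i j k : ℤ) (hij : i < j) (hjk : j < k) : 0 ≤ tz (pr α β t) a b c i j k :=
  P3_pr α β t (fun l hl => hα l (ht hl)) (fun l hl => hβ l (ht hl)) a b c hab hbc i j k hij hjk

lemma one_nonneg (l : ℕ) (hl : l ∈ s) (i j k : ℤ) (hij : i < j) (hjk : j < k) :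
    0 ≤ mi3 (pr α β s) (X * pr α β (s.erase l)) (X * pr α β s) i j k := by
  rw [pr_erase α β s l hl, A1]
  have := tz_nonneg α β s hα hβ (s.erase l) (erase_subset _ _) 0 1 2 (by norm_num) (by norm_num)
    i j k hij hjk
  have h1 := hα l hl
  have h2 := hβ l hl
  positivity

lemma pair_nonneg (l m : ℕ) (hl : l ∈ s) (hm : m ∈ s) (i j k : ℤ) (hij : i < j) (hjk : j < k) :
    0 ≤ mi3 (pr α β s) (X * pr α β (s.erase l)) (X ^ 2 * pr α β (s.erase m)) i j k
      + mi3 (pr α β s) (X * pr α β (s.erase m)) (X ^ 2 * pr α β (s.erase l)) i j k := by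
  by_cases hlm : l = m
  · subst hlm
    have e : mi3 (pr α β s) (X * pr α β (s.erase l)) (X ^ 2 * pr α β (s.erase l)) i j k
        = β l * tz (pr α β (s.erase l)) 0 1 2 i j k := by
      rw [pr_erase α β s l hl, A2]
    rw [e]
    have := tz_nonneg α β s hα hβ (s.erase l) (erase_subset _ _) 0 1 2 (by norm_num) (by norm_num)
      i j k hij hjk
    have h2 := hβ l hl
    positivity
  · have hsub : (s.erase l).erase m ⊆ s := (erase_subset _ _).trans (erase_subset _ _)
    have e1 : pr α β (s.erase l) = lin (α m) (β m) * pr α β ((s.erase l).erase m) :=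
      pr_erase α β _ m (mem_erase.2 ⟨Ne.symm hlm, hm⟩)
    have e2 : pr α β (s.erase m) = lin (α l) (β l) * pr α β ((s.erase l).erase m) := by
      rw [pr_erase α β (s.erase m) l (mem_erase.2 ⟨hlm, hl⟩), erase_right_comm]
    rw [pr_erase α β s l hl, e1, e2, A3]
    have t1 := tz_nonneg α β s hα hβ _ hsub 0 1 2 (by norm_num) (by norm_num) i j k hij hjk
    have t2 := tz_nonneg α β s hα hβ _ hsub 0 1 3 (by norm_num) (by norm_num) i j k hij hjk
    have t3 := tz_nonneg α β s hα hβ _ hsub 0 2 3 (by norm_num) (by norm_num) i j k hij hjk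
    have t4 := tz_nonneg α β s hα hβ _ hsub 1 2 3 (by norm_num) (by norm_num) i j k hij hjk
    have a1 := hα l hl
    have b1 := hβ l hl
    have a2 := hα m hm
    have b2 := hβ m hm
    positivity

/-- the term with one repeated index -/
lemma rep_nonneg (l m : ℕ) (hl : l ∈ s) (hm : m ∈ s) (hlm : l ≠ m) (i j k : ℤ) (hij : i < j)
    (hjk : j < k) :
    0 ≤ mi3 (pr α β s) (X * pr α β (s.erase l)) (X ^ 2 * pr α β ((s.erase l).erase m)) i j k := by
  have hsub : (s.erase l).erase m ⊆ s := (erase_subset _ _).trans (erase_subset _ _)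
  have e1 : pr α β (s.erase l) = lin (α m) (β m) * pr α β ((s.erase l).erase m) :=
    pr_erase α β _ m (mem_erase.2 ⟨Ne.symm hlm, hm⟩)
  rw [pr_erase α β s l hl, e1, A4]
  have t1 := tz_nonneg α β s hα hβ _ hsub 0 1 2 (by norm_num) (by norm_num) i j k hij hjk
  have b1 := hβ l hl
  have b2 := hβ m hm
  positivity

lemma triple_nonneg (l m n : ℕ) (hl : l ∈ s) (hm : m ∈ s) (hn : n ∈ s) (hlm : l ≠ m) (hln : l ≠ n)
    (hmn : m ≠ n) (i j k : ℤ) (hij : i < j) (hjk : j < k) :
    0 ≤ mi3 (pr α β s) (X * pr α β (s.erase l)) (X ^ 2 * pr α β ((s.erase m).erase n)) i j k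
      + mi3 (pr α β s) (X * pr α β (s.erase m)) (X ^ 2 * pr α β ((s.erase n).erase l)) i j k
      + mi3 (pr α β s) (X * pr α β (s.erase n)) (X ^ 2 * pr α β ((s.erase l).erase m)) i j k := by
  set t := ((s.erase l).erase m).erase n with htdef
  have hsub : t ⊆ s := (erase_subset _ _).trans ((erase_subset _ _).trans (erase_subset _ _))
  have e0 : pr α β ((s.erase l).erase m) = lin (α n) (β n) * pr α β t :=
    pr_erase α β _ n (by simp [hn, Ne.symm hln, Ne.symm hmn])
  have e1 : pr α β ((s.erase m).erase n) = lin (α l) (β l) * pr α β t := by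
    rw [pr_erase α β ((s.erase m).erase n) l (by simp [hl, hlm, hln])]
    congr 2
    rw [htdef]
    ext x; simp; tauto
  have e2 : pr α β ((s.erase n).erase l) = lin (α m) (β m) * pr α β t := by
    rw [pr_erase α β ((s.erase n).erase l) m (by simp [hm, Ne.symm hlm, hmn])]
    congr 2
    rw [htdef]
    ext x; simp; tauto
  have f1 : pr α β (s.erase l) = lin (α m) (β m) * (lin (α n) (β n) * pr α β t) := by
    rw [pr_erase α β (s.erase l) m (by simp [hm, Ne.symm hlm]), e0]
  have f2 : pr α β (s.erase m) = lin (α l) (β l) * (lin (α n) (β n) * pr α β t) := by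
    rw [pr_erase α β (s.erase m) l (by simp [hl, hlm]), erase_right_comm, e0]
  have f3 : pr α β (s.erase n) = lin (α l) (β l) * (lin (α m) (β m) * pr α β t) := by
    rw [pr_erase α β (s.erase n) l (by simp [hl, hln]), e2]
  rw [pr_erase α β s l hl, f1, f2, f3, e0, e1, e2, A5]
  have t1 := tz_nonneg α β s hα hβ _ hsub 0 1 2 (by norm_num) (by norm_num) i j k hij hjk
  have t2 := tz_nonneg α β s hα hβ _ hsub 0 1 3 (by norm_num) (by norm_num) i j k hij hjk
  have t3 := tz_nonneg α β s hα hβ _ hsub 0 2 3 (by norm_num) (by norm_num) i j k hij hjk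
  have t4 := tz_nonneg α β s hα hβ _ hsub 1 2 3 (by norm_num) (by norm_num) i j k hij hjk
  have a1 := hα l hl
  have b1 := hβ l hl
  have a2 := hα m hm
  have b2 := hβ m hm
  have a3 := hα n hn
  have b3 := hβ n hn
  positivity

omit hα hβ in
/-- the cyclic symmetrisation of the triple sum -/
lemma sym3 (f : ℕ → ℕ → ℕ → ℝ) (s : Finset ℕ)
    (h : ∀ l ∈ s, ∀ m ∈ s, ∀ n ∈ s, 0 ≤ f l m n + f m n l + f n l m) :
    0 ≤ ∑ l ∈ s, ∑ m ∈ s, ∑ n ∈ s, f l m n := by
  have e1 : ∑ l ∈ s, ∑ m ∈ s, ∑ n ∈ s, f m n l = ∑ l ∈ s, ∑ m ∈ s, ∑ n ∈ s, f l m n := by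
    rw [Finset.sum_comm]
    apply Finset.sum_congr rfl
    intro m _
    rw [Finset.sum_comm]
  have e2 : ∑ l ∈ s, ∑ m ∈ s, ∑ n ∈ s, f n l m = ∑ l ∈ s, ∑ m ∈ s, ∑ n ∈ s, f l m n := by
    have : ∑ l ∈ s, ∑ m ∈ s, ∑ n ∈ s, f n l m = ∑ l ∈ s, ∑ n ∈ s, ∑ m ∈ s, f n l m := by
      apply Finset.sum_congr rfl
      intro l _
      rw [Finset.sum_comm]
    rw [this, Finset.sum_comm]
  have e3 : ∑ l ∈ s, ∑ m ∈ s, ∑ n ∈ s, (f l m n + f m n l + f n l m)
      = 3 * ∑ l ∈ s, ∑ m ∈ s, ∑ n ∈ s, f l m n := by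
    simp only [Finset.sum_add_distrib]
    rw [e1, e2]
    ring
  have e4 : 0 ≤ ∑ l ∈ s, ∑ m ∈ s, ∑ n ∈ s, (f l m n + f m n l + f n l m) :=
    Finset.sum_nonneg fun l hl => Finset.sum_nonneg fun m hm => Finset.sum_nonneg fun n hn =>
      h l hl m hm n hn
  linarith

omit hα hβ in
lemma sym2 (f : ℕ → ℕ → ℝ) (s : Finset ℕ)
    (h : ∀ l ∈ s, ∀ m ∈ s, 0 ≤ f l m + f m l) :
    0 ≤ ∑ l ∈ s, ∑ m ∈ s, f l m := by
  have e1 : ∑ l ∈ s, ∑ m ∈ s, f m l = ∑ l ∈ s, ∑ m ∈ s, f l m := by
    rw [Finset.sum_comm]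
  have e3 : ∑ l ∈ s, ∑ m ∈ s, (f l m + f m l) = 2 * ∑ l ∈ s, ∑ m ∈ s, f l m := by
    simp only [Finset.sum_add_distrib]
    rw [e1]
    ring
  have e4 : 0 ≤ ∑ l ∈ s, ∑ m ∈ s, (f l m + f m l) :=
    Finset.sum_nonneg fun l hl => Finset.sum_nonneg fun m hm => h l hl m hm
  linarith

/-- the 3 x 3 minors of three consecutive rows -/
theorem main3 (c : ℝ) (hc : 0 ≤ c) :
    P3 (pr α β s) (X * D1 α β s)
      (C c * (X * pr α β s) + X ^ 2 * D1 α β s + X ^ 2 * D2 α β s) := by
  intro i j k hij hjk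
  have hX : X * D1 α β s = ∑ l ∈ s, X * pr α β (s.erase l) := by
    unfold D1; rw [Finset.mul_sum]
  have hX2 : X ^ 2 * D1 α β s = ∑ m ∈ s, X ^ 2 * pr α β (s.erase m) := by
    unfold D1; rw [Finset.mul_sum]
  have hX3 : X ^ 2 * D2 α β s
      = ∑ m ∈ s, ∑ n ∈ s, if n ≠ m then X ^ 2 * pr α β ((s.erase m).erase n) else 0 := by
    unfold D2 D1
    rw [Finset.mul_sum]
    apply Finset.sum_congr rfl
    intro m _
    rw [Finset.mul_sum, ← Finset.filter_ne' s m, Finset.sum_filter, Finset.filter_ne']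
  rw [mi3_add_right, mi3_add_right, mi3_C_right]
  have p1 : 0 ≤ mi3 (pr α β s) (X * D1 α β s) (X * pr α β s) i j k := by
    rw [hX, mi3_sum_mid]
    exact Finset.sum_nonneg fun l hl => one_nonneg α β s hα hβ l hl i j k hij hjk
  have p2 : 0 ≤ mi3 (pr α β s) (X * D1 α β s) (X ^ 2 * D1 α β s) i j k := by
    rw [hX, hX2, mi3_sum_mid]
    simp only [mi3_sum_right]
    exact sym2 _ s fun l hl m hm => pair_nonneg α β s hα hβ l m hl hm i j k hij hjk
  have p3 : 0 ≤ mi3 (pr α β s) (X * D1 α β s) (X ^ 2 * D2 α β s) i j k := by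
    rw [hX, hX3, mi3_sum_mid]
    simp only [mi3_sum_right]
    refine sym3 (fun l m n => mi3 (pr α β s) (X * pr α β (s.erase l))
      (if n ≠ m then X ^ 2 * pr α β ((s.erase m).erase n) else 0) i j k) s ?_
    intro l hl m hm n hn
    have z : ∀ p q : ℝ[X], mi3 p q 0 i j k = 0 := by
      intro p q; simp [mi3, cf_zero]
    have rep := fun a b ha hb hab => rep_nonneg α β s hα hβ a b ha hb hab i j k hij hjk
    by_cases h1 : l = m
    · subst h1
      by_cases h2 : l = n
      · subst h2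
        simp [z]
      · have r1 := rep l n hl hn h2
        have r2 : 0 ≤ mi3 (pr α β s) (X * pr α β (s.erase l))
            (X ^ 2 * pr α β ((s.erase n).erase l)) i j k := by
          rw [erase_right_comm]; exact r1
        simp only [ne_eq, h2, Ne.symm h2, not_false_eq_true, if_true, not_true_eq_false, if_false, z]
        linarith
    · by_cases h2 : l = n
      · subst h2
        have r1 := rep l m hl hm h1
        have r2 : 0 ≤ mi3 (pr α β s) (X * pr α β (s.erase l))
            (X ^ 2 * pr α β ((s.erase m).erase l)) i j k := by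
          rw [erase_right_comm]; exact r1
        have h1' : ¬ m = l := fun h => h1 h.symm
        simp only [ne_eq, h1, h1', not_false_eq_true, if_true, not_true_eq_false, if_false, z]
        linarith
      · by_cases h3 : m = n
        · subst h3
          have r1 := rep m l hm hl (fun h => h1 h.symm)
          have r2 : 0 ≤ mi3 (pr α β s) (X * pr α β (s.erase m))
              (X ^ 2 * pr α β ((s.erase l).erase m)) i j k := by
            rw [erase_right_comm]; exact r1
          have h1' : ¬ m = l := fun h => h1 h.symm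
          simp only [ne_eq, h1, h1', not_false_eq_true, if_true, not_true_eq_false, if_false, z]
          linarith
        · have r := triple_nonneg α β s hα hβ l m n hl hm hn h1 h2 h3 i j k hij hjk
          have h1' : ¬ m = l := fun h => h1 h.symm
          have h2' : ¬ n = l := fun h => h2 h.symm
          have h3' : ¬ n = m := fun h => h3 h.symm
          simp only [ne_eq, h1', h2, h3', not_false_eq_true, if_true]
          exact r
  positivity

end

end Pool.Agent.EulerTP3
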