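import Pool.Agent.EulerTP3.Basic

set_option autoImplicit false

open Polynomial Finset

namespace Pool.Agent.EulerTP3

noncomputable section

/-- the minor with rows `X^a w, X^b w, X^c w` -/
def tz (w : ℝ[X]) (a b c : ℕ) (i j k : ℤ) : ℝ := mi3 (X ^ a * w) (X ^ b * w) (X ^ c * w) i j k

lemma cf_X_pow_mul (a : ℕ) (p : ℝ[X]) (j : ℤ) : cf (X ^ a * p) j = cf p (j - a) := by
  induction a generalizing j with
  | zero => simp
  | succ a ih =>
    have : (X : ℝ[X]) ^ (a + 1) * p = X * (X ^ a * p) := by ring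
    rw [this, cf_X_mul, ih]
    congr 1
    push_cast
    ring

lemma A1 (α β : ℝ) (w : ℝ[X]) (i j k : ℤ) :
    mi3 (lin α β * w) (X * w) (X * (lin α β * w)) i j k = α * β * tz w 0 1 2 i j k := by
  unfold tz mi3
  simp only [cf_lin_mul, cf_X_mul, cf_X_pow_mul]
  push_cast
  simp only [sub_sub, sub_zero, one_add_one_eq_two]
  ring

lemma A2 (α β : ℝ) (w : ℝ[X]) (i j k : ℤ) :
    mi3 (lin α β * w) (X * w) (X ^ 2 * w) i j k = β * tz w 0 1 2 i j k := by
  unfold tz mi3
  simp only [cf_lin_mul, cf_X_mul, cf_X_pow_mul]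
  push_cast
  simp only [sub_sub, sub_zero, one_add_one_eq_two]
  ring

lemma A4 (α β α' β' : ℝ) (w : ℝ[X]) (i j k : ℤ) :
    mi3 (lin α β * (lin α' β' * w)) (X * (lin α' β' * w)) (X ^ 2 * w) i j k
      = β * β' * β' * tz w 0 1 2 i j k := by
  unfold tz mi3
  simp only [cf_lin_mul, cf_X_mul, cf_X_pow_mul]
  push_cast
  simp only [sub_sub, sub_zero, one_add_one_eq_two]
  ring

lemma A3 (α β α' β' : ℝ) (w : ℝ[X]) (i j k : ℤ) :
    mi3 (lin α β * (lin α' β' * w)) (X * (lin α' β' * w)) (X ^ 2 * (lin α β * w)) i j k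
      + mi3 (lin α β * (lin α' β' * w)) (X * (lin α β * w)) (X ^ 2 * (lin α' β' * w)) i j k
      = 2 * (β * β) * (β' * β') * tz w 0 1 2 i j k
        + β * β' * (α * β' + α' * β) * tz w 0 1 3 i j k
        + 2 * (α * α') * (β * β') * tz w 0 2 3 i j k
        + α * α' * (α' * β + α * β') * tz w 1 2 3 i j k := by
  unfold tz mi3
  simp only [cf_lin_mul, cf_X_mul, cf_X_pow_mul]
  push_cast
  simp only [sub_sub, sub_zero, one_add_one_eq_two]
  norm_num
  ring

lemma A5 (α β α' β' α'' β'' : ℝ) (w : ℝ[X]) (i j k : ℤ) :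
    mi3 (lin α β * (lin α' β' * (lin α'' β'' * w))) (X * (lin α' β' * (lin α'' β'' * w)))
        (X ^ 2 * (lin α β * w)) i j k
      + mi3 (lin α β * (lin α' β' * (lin α'' β'' * w))) (X * (lin α β * (lin α'' β'' * w)))
        (X ^ 2 * (lin α' β' * w)) i j k
      + mi3 (lin α β * (lin α' β' * (lin α'' β'' * w))) (X * (lin α β * (lin α' β' * w)))
        (X ^ 2 * (lin α'' β'' * w)) i j k
      = β * β' * β'' * (3 * (β * β' * β'') * tz w 0 1 2 i j k
        + (α * β' * β'' + β * α' * β'' + β * β' * α'') * tz w 0 1 3 i j k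
        + (α * α' * β'' + α * β' * α'' + β * α' * α'') * tz w 0 2 3 i j k
        + 3 * (α * α' * α'') * tz w 1 2 3 i j k) := by
  unfold tz mi3
  simp only [cf_lin_mul, cf_X_mul, cf_X_pow_mul]
  push_cast
  simp only [sub_sub, sub_zero, one_add_one_eq_two]
  norm_num
  ring

end

end Pool.Agent.EulerTP3
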