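import Mathlib

set_option autoImplicit false

open Polynomial Finset

namespace Pool.Agent.EulerTP3

noncomputable section

lemma multiset_index (s : Multiset ℂ) :
    ∃ f : ℕ → ℂ, s = (Multiset.range (Multiset.card s)).map f := by
  induction s using Multiset.induction with
  | empty => exact ⟨fun _ => 0, by simp⟩
  | cons a s ih =>
    obtain ⟨f, hf⟩ := ih
    refine ⟨fun k => if k = Multiset.card s then a else f k, ?_⟩
    rw [Multiset.card_cons, Multiset.range_succ, Multiset.map_cons, if_pos rfl]
    congr 1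
    conv_lhs => rw [hf]
    apply Multiset.map_congr rfl
    intro x hx
    have : x < Multiset.card s := Multiset.mem_range.1 hx
    rw [if_neg (by omega)]

/-- roots of the segment -/
def seg : Set ℂ := {z : ℂ | z.im = 0 ∧ -1 ≤ z.re ∧ z.re ≤ 0}

lemma convex_seg : Convex ℝ seg := by
  intro x hx y hy a b ha hb hab
  obtain ⟨hx1, hx2, hx3⟩ := hx
  obtain ⟨hy1, hy2, hy3⟩ := hy
  refine ⟨?_, ?_, ?_⟩
  · simp [hx1, hy1]
  · simp only [Complex.add_re, Complex.real_smul, Complex.mul_re, Complex.ofReal_re,
      Complex.ofReal_im, zero_mul, sub_zero]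
    nlinarith
  · simp only [Complex.add_re, Complex.real_smul, Complex.mul_re, Complex.ofReal_re,
      Complex.ofReal_im, zero_mul, sub_zero]
    nlinarith

theorem gl (c : ℕ) (hc : 1 ≤ c) (n : ℕ) (θ : ℕ → ℝ) (h1 : ∀ l < n, 0 < θ l ∧ θ l < 1)
    (h2 : θ n = 1) :
    ∃ θ' : ℕ → ℝ, (∀ l < n + 1, 0 < θ' l ∧ θ' l < 1) ∧
      ∀ z : ℝ, (c : ℝ) * ∏ l ∈ range (n + 1), (z + θ l)
        + z * ∑ l ∈ range (n + 1), ∏ m ∈ (range (n + 1)).erase l, (z + θ m)
        = ((c : ℝ) + n + 1) * ∏ l ∈ range (n + 1), (z + θ' l) := by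
  set V : ℂ[X] := ∏ l ∈ range (n + 1), (X + C (θ l : ℂ)) with hV
  have hVmonic : V.Monic := monic_prod_of_monic _ _ fun l _ => monic_X_add_C _
  have hVdeg : V.natDegree = n + 1 := by
    rw [hV, natDegree_prod_of_monic _ _ (fun l _ => monic_X_add_C _)]
    simp
  set Q : ℂ[X] := C (c : ℂ) * V + X * derivative V with hQ
  have hVcoeff : V.coeff (n + 1) = 1 := by
    have := hVmonic.coeff_natDegree
    rwa [hVdeg] at this
  have hQcoeff : Q.coeff (n + 1) = (c : ℂ) + n + 1 := by
    rw [hQ, coeff_add, coeff_C_mul, hVcoeff, coeff_X_mul, coeff_derivative, hVcoeff]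
    ring
  have hne : (c : ℂ) + n + 1 ≠ 0 := by
    have : ((c + n + 1 : ℕ) : ℂ) ≠ 0 := by exact_mod_cast (by omega : c + n + 1 ≠ 0)
    push_cast at this
    exact this
  have hQdeg : Q.natDegree = n + 1 := by
    apply le_antisymm
    · rw [hQ]
      apply (natDegree_add_le _ _).trans
      apply max_le
      · exact (natDegree_C_mul_le _ _).trans hVdeg.le
      · apply natDegree_mul_le.trans
        have := natDegree_derivative_le V
        rw [hVdeg] at this
        have hX : (X : ℂ[X]).natDegree ≤ 1 := natDegree_X_le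
        omega
    · apply le_natDegree_of_ne_zero
      rw [hQcoeff]; exact hne
  have hQ0 : Q ≠ 0 := by
    intro h
    rw [h] at hQdeg
    simp at hQdeg
  have hlead : Q.leadingCoeff = (c : ℂ) + n + 1 := by
    rw [leadingCoeff, hQdeg, hQcoeff]
  -- W
  set W : ℂ[X] := X ^ c * V with hW
  have hWd : derivative W = X ^ (c - 1) * Q := by
    rw [hW, derivative_mul, derivative_X_pow, hQ]
    obtain ⟨d, rfl⟩ : ∃ d, c = d + 1 := ⟨c - 1, by omega⟩
    simp only [Nat.add_sub_cancel]
    rw [pow_succ]
    ring
  have hW0 : W ≠ 0 := mul_ne_zero (pow_ne_zero _ X_ne_zero) hVmonic.ne_zero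
  have hWroots : W.rootSet ℂ ⊆ seg := by
    intro z hz
    rw [mem_rootSet] at hz
    have hz' : W.eval z = 0 := by simpa [aeval_def, eval₂_eq_eval_map] using hz.2
    rw [hW, eval_mul, eval_pow, eval_X] at hz'
    rcases mul_eq_zero.1 hz' with h | h
    · have : z = 0 := pow_eq_zero_iff (by omega) |>.1 h
      subst this
      exact ⟨by simp, by simp, by simp⟩
    · rw [hV, eval_prod, Finset.prod_eq_zero_iff] at h
      obtain ⟨l, hl, hl'⟩ := h
      have hl2 : z = -(θ l : ℂ) := by
        have : z + (θ l : ℂ) = 0 := by simpa using hl'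
        linear_combination this
      have hb : 0 ≤ θ l ∧ θ l ≤ 1 := by
        have := Finset.mem_range.1 hl
        rcases Nat.lt_or_ge l n with h3 | h3
        · exact ⟨(h1 l h3).1.le, (h1 l h3).2.le⟩
        · have : l = n := by omega
          rw [this, h2]; norm_num
      subst hl2
      exact ⟨by simp, by simp; exact hb.2, by simp; exact hb.1⟩
  have hWdeg : 0 < W.degree := by
    rw [← natDegree_pos_iff_degree_pos, hW, natDegree_mul (pow_ne_zero _ X_ne_zero) hVmonic.ne_zero,
      hVdeg]
    omega
  have hGL := rootSet_derivative_subset_convexHull_rootSet hWdeg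
  have hhull : convexHull ℝ (W.rootSet ℂ) ⊆ seg := convexHull_min hWroots convex_seg
  -- roots of Q lie in the open segment
  have hroot : ∀ z ∈ Q.roots, z.im = 0 ∧ -1 < z.re ∧ z.re < 0 := by
    intro z hz
    have hz0 : Q.eval z = 0 := (mem_roots'.1 hz).2
    have hd0 : derivative W ≠ 0 := by
      rw [hWd]; exact mul_ne_zero (pow_ne_zero _ X_ne_zero) hQ0
    have hzd : z ∈ (derivative W).rootSet ℂ := by
      rw [mem_rootSet]
      refine ⟨hd0, ?_⟩
      rw [hWd]
      simp [hz0]
    obtain ⟨i1, i2, i3⟩ := hhull (hGL hzd)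
    refine ⟨i1, lt_of_le_of_ne i2 ?_, lt_of_le_of_ne i3 ?_⟩
    · intro h
      have hz1 : z = -1 := by
        apply Complex.ext
        · simp [← h]
        · simp [i1]
      -- Q(-1) = - V'(-1) ≠ 0
      rw [hz1, hQ, eval_add, eval_mul, eval_mul, eval_C, eval_X] at hz0
      have hV1 : V.eval (-1) = 0 := by
        rw [hV, eval_prod]
        apply Finset.prod_eq_zero (Finset.mem_range.2 (Nat.lt_succ_self n))
        simp [h2]
      have hV2 : (derivative V).eval (-1) = ∏ l ∈ range n, (-1 + (θ l : ℂ)) := by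
        rw [hV, Finset.prod_range_succ, derivative_mul, eval_add, eval_mul, eval_mul, h2]
        simp [eval_prod]
      rw [hV1, hV2] at hz0
      have h3 : ∏ l ∈ range n, (-1 + (θ l : ℂ)) = 0 := by
        linear_combination -hz0
      rw [Finset.prod_eq_zero_iff] at h3
      obtain ⟨l, hl, hl'⟩ := h3
      have h4 : θ l = 1 := by
        have : (θ l : ℂ) = 1 := by linear_combination hl'
        exact_mod_cast this
      have := (h1 l (Finset.mem_range.1 hl)).2
      linarith
    · intro h
      have hz1 : z = 0 := by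
        apply Complex.ext
        · simp [h]
        · simp [i1]
      rw [hz1, hQ, eval_add, eval_mul, eval_mul, eval_C, eval_X, zero_mul, add_zero] at hz0
      rcases mul_eq_zero.1 hz0 with h3 | h3
      · have : (c : ℂ) ≠ 0 := by exact_mod_cast (by omega : c ≠ 0)
        exact this h3
      · rw [hV, eval_prod, Finset.prod_eq_zero_iff] at h3
        obtain ⟨l, hl, hl'⟩ := h3
        have h4 : θ l = 0 := by
          have : (θ l : ℂ) = 0 := by simpa using hl'
          exact_mod_cast this
        have := Finset.mem_range.1 hl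
        rcases Nat.lt_or_ge l n with h5 | h5
        · have := (h1 l h5).1
          linarith
        · have : l = n := by omega
          rw [this, h2] at h4
          norm_num at h4
  obtain ⟨f, hf⟩ := multiset_index Q.roots
  have hsplit : Q.Splits := IsAlgClosed.splits Q
  have hcard : Multiset.card Q.roots = n + 1 := by
    rw [← hsplit.natDegree_eq_card_roots, hQdeg]
  rw [hcard] at hf
  have hmem : ∀ l < n + 1, f l ∈ Q.roots := by
    intro l hl
    rw [hf]
    exact Multiset.mem_map_of_mem _ (Multiset.mem_range.2 hl)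
  refine ⟨fun l => -(f l).re, ?_, ?_⟩
  · intro l hl
    obtain ⟨_, i2, i3⟩ := hroot _ (hmem l hl)
    constructor <;> simp only <;> linarith
  · intro z
    have hprod : Q = C Q.leadingCoeff * ∏ l ∈ range (n + 1), (X - C (f l)) := by
      conv_lhs => rw [hsplit.eq_prod_roots, hf]
      rw [Multiset.map_map]
      rfl
    have hev : Q.eval (z : ℂ) = ((c : ℂ) + n + 1) * ∏ l ∈ range (n + 1), ((z : ℂ) - f l) := by
      rw [hprod, hlead, eval_mul, eval_C, eval_prod]
      simp
    have hev2 : Q.eval (z : ℂ) = (c : ℂ) * ∏ l ∈ range (n + 1), ((z : ℂ) + θ l)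
        + z * ∑ l ∈ range (n + 1), ∏ m ∈ (range (n + 1)).erase l, ((z : ℂ) + θ m) := by
      rw [hQ, eval_add, eval_mul, eval_mul, eval_C, eval_X, hV, eval_prod, derivative_prod_finset]
      simp [eval_finsetSum, eval_prod]
    have hfl : ∏ l ∈ range (n + 1), ((z : ℂ) - f l)
        = ∏ l ∈ range (n + 1), ((z : ℂ) + ((-(f l).re : ℝ) : ℂ)) := by
      apply Finset.prod_congr rfl
      intro l hl
      obtain ⟨i1, _, _⟩ := hroot _ (hmem l (Finset.mem_range.1 hl))
      have : f l = ((f l).re : ℂ) := by
        apply Complex.ext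
        · simp
        · simp [i1]
      rw [this]
      push_cast
      simp
      ring
    rw [hfl] at hev
    rw [hev2] at hev
    exact_mod_cast hev

end

end Pool.Agent.EulerTP3
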