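import Pool.Agent.EulerTP3.Global
import Pool.Agent.EulerTP3.Roots

set_option autoImplicit false

open Polynomial Finset

namespace Pool.Agent.EulerTP3

noncomputable section

/-- the row polynomials; `ρ = r - 1` -/
def R (ρ : ℕ) : ℕ → ℝ[X]
  | 0 => 1
  | n + 1 => C (1 + (ρ : ℝ) * (n + 1)) * R ρ n + X * (1 - X) * derivative (R ρ n)
      + C ((n : ℝ) + 1) * (X * R ρ n)

lemma aux1 (c P S x y : ℝ) (hy : y ≠ 0) (n : ℕ) :
    (c * (P / y ^ (n + 1)) + x / y * (S / y ^ n)) * y ^ (n + 1) = c * P + x * S := by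
  have h1 : y ^ n ≠ 0 := pow_ne_zero _ hy
  rw [pow_succ]
  field_simp

lemma aux2 (c P y : ℝ) (hy : y ≠ 0) (n : ℕ) :
    (c * (P / y ^ (n + 1))) * y ^ (n + 1) = c * P := by
  have h1 : y ^ (n + 1) ≠ 0 := pow_ne_zero _ hy
  field_simp

lemma lin_eq (θ : ℝ) : X * (1 - X) * C (1 - θ) + X * lin (1 - θ) θ = X := by
  unfold lin
  simp only [map_sub, map_one]
  ring

/-- the derivation on a product of linear factors -/
lemma delta_pr (θ : ℕ → ℝ) (s : Finset ℕ) :
    X * (1 - X) * derivative (pr (fun l => 1 - θ l) θ s)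
      = X * D1 (fun l => 1 - θ l) θ s - C ((s.card : ℝ)) * (X * pr (fun l => 1 - θ l) θ s) := by
  have h1 : C ((s.card : ℝ)) * (X * pr (fun l => 1 - θ l) θ s)
      = ∑ l ∈ s, X * (lin (1 - θ l) (θ l) * pr (fun l => 1 - θ l) θ (s.erase l)) := by
    have : ∀ l ∈ s, X * (lin (1 - θ l) (θ l) * pr (fun l => 1 - θ l) θ (s.erase l))
        = X * pr (fun l => 1 - θ l) θ s := by
      intro l hl
      rw [pr_erase (fun l => 1 - θ l) θ s l hl]
    rw [Finset.sum_congr rfl this, Finset.sum_const, nsmul_eq_mul]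
    simp
  rw [h1]
  have h2 : derivative (pr (fun l => 1 - θ l) θ s)
      = ∑ l ∈ s, pr (fun l => 1 - θ l) θ (s.erase l) * C (1 - θ l) := by
    unfold pr
    rw [derivative_prod_finset]
    apply Finset.sum_congr rfl
    intro l _
    congr 1
    unfold lin
    simp
  rw [h2]
  unfold D1
  rw [Finset.mul_sum, Finset.mul_sum, ← Finset.sum_sub_distrib]
  apply Finset.sum_congr rfl
  intro l _
  have := lin_eq (θ l)
  linear_combination pr (fun l => 1 - θ l) θ (s.erase l) * this

lemma delta_D1 (θ : ℕ → ℝ) (s : Finset ℕ) :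
    X * (1 - X) * derivative (D1 (fun l => 1 - θ l) θ s)
      = X * D2 (fun l => 1 - θ l) θ s - C ((s.card : ℝ) - 1) * (X * D1 (fun l => 1 - θ l) θ s) := by
  have h : ∀ l ∈ s, X * (1 - X) * derivative (pr (fun l => 1 - θ l) θ (s.erase l))
      = X * D1 (fun l => 1 - θ l) θ (s.erase l)
        - C ((s.card : ℝ) - 1) * (X * pr (fun l => 1 - θ l) θ (s.erase l)) := by
    intro l hl
    rw [delta_pr, Finset.card_erase_of_mem hl]
    have : 1 ≤ s.card := Finset.card_pos.2 ⟨l, hl⟩
    rw [Nat.cast_sub this]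
    simp
  unfold D2
  conv_lhs => unfold D1
  conv_rhs => arg 2; unfold D1
  rw [derivative_sum, Finset.mul_sum, Finset.sum_congr rfl h, Finset.sum_sub_distrib,
    ← Finset.mul_sum, ← Finset.mul_sum, ← Finset.mul_sum]

/-- factorisation of the rows -/
def Fac (ρ n : ℕ) (κ : ℝ) (θ : ℕ → ℝ) : Prop :=
  0 < κ ∧ (∀ l < n, 0 < θ l ∧ θ l < 1) ∧ θ n = 1 ∧
    R ρ n = C κ * pr (fun l => 1 - θ l) θ (range (n + 1))

lemma step1 {ρ n : ℕ} {κ : ℝ} {θ : ℕ → ℝ} (h : Fac ρ n κ θ) :
    R ρ (n + 1) = C κ * (C (1 + (ρ : ℝ) * (n + 1)) * pr (fun l => 1 - θ l) θ (range (n + 1))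
      + X * D1 (fun l => 1 - θ l) θ (range (n + 1))) := by
  obtain ⟨-, -, -, hR⟩ := h
  rw [R, hR, derivative_C_mul]
  have := delta_pr θ (range (n + 1))
  rw [card_range] at this
  push_cast at this
  linear_combination C κ * this

lemma step2 {ρ n : ℕ} {κ : ℝ} {θ : ℕ → ℝ} (h : Fac ρ n κ θ) :
    R ρ (n + 2) = C κ * (C ((1 + (ρ : ℝ) * (n + 1)) * (1 + (ρ : ℝ) * (n + 2)))
        * pr (fun l => 1 - θ l) θ (range (n + 1))
      + C ((1 + (ρ : ℝ) * (n + 1)) + (1 + (ρ : ℝ) * (n + 2)) + 1)
        * (X * D1 (fun l => 1 - θ l) θ (range (n + 1)))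
      + (C (1 + (ρ : ℝ) * (n + 1)) * (X * pr (fun l => 1 - θ l) θ (range (n + 1)))
        + X ^ 2 * D1 (fun l => 1 - θ l) θ (range (n + 1))
        + X ^ 2 * D2 (fun l => 1 - θ l) θ (range (n + 1)))) := by
  have e : R ρ (n + 2) = C (1 + (ρ : ℝ) * ((n + 1 : ℕ) + 1)) * R ρ (n + 1)
      + X * (1 - X) * derivative (R ρ (n + 1)) + C (((n + 1 : ℕ) : ℝ) + 1) * (X * R ρ (n + 1)) := rfl
  rw [e, step1 h]
  have h1 := delta_pr θ (range (n + 1))
  have h2 := delta_D1 θ (range (n + 1))
  rw [card_range] at h1 h2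
  push_cast at h1 h2 ⊢
  simp only [derivative_C_mul, derivative_add, derivative_mul, derivative_X, derivative_C]
  simp only [map_add, map_mul, map_sub, map_one] at h1 h2 ⊢
  have c2 : (C (2 : ℝ) : ℝ[X]) = 2 := map_ofNat C 2
  simp only [c2]
  linear_combination C κ * (1 + C (ρ : ℝ) * (C (n : ℝ) + 1)) * h1 + C κ * X * h2

lemma fac_exists (ρ n : ℕ) : ∃ κ : ℝ, ∃ θ : ℕ → ℝ, Fac ρ n κ θ := by
  induction n with
  | zero =>
    refine ⟨1, fun _ => 1, by norm_num, by simp, rfl, ?_⟩
    simp [R, pr, lin]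
  | succ n ih =>
    obtain ⟨κ, θ, h⟩ := ih
    have hs := step1 h
    obtain ⟨hκ, h1, h2, -⟩ := h
    obtain ⟨θ', h1', hid⟩ := gl (1 + ρ * (n + 1)) (by omega) n θ h1 h2
    set c : ℝ := ((1 + ρ * (n + 1) : ℕ) : ℝ) with hc
    have hcpos : 0 < c := by rw [hc]; exact_mod_cast (by omega : 0 < 1 + ρ * (n + 1))
    have hc' : (1 + (ρ : ℝ) * (n + 1)) = c := by rw [hc]; push_cast; ring
    rw [hc'] at hs
    refine ⟨κ * (c + n + 1), fun l => if l < n + 1 then θ' l else 1, by positivity, ?_, ?_, ?_⟩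
    · intro l hl
      simp only [if_pos hl]
      exact h1' l hl
    · simp
    · rw [hs]
      have hpr : pr (fun l => 1 - (fun l => if l < n + 1 then θ' l else 1) l)
          (fun l => if l < n + 1 then θ' l else 1) (range (n + 1 + 1))
          = pr (fun l => 1 - θ' l) θ' (range (n + 1)) := by
        unfold pr
        rw [Finset.prod_range_succ]
        have : lin (1 - (if n + 1 < n + 1 then θ' (n + 1) else 1))
            (if n + 1 < n + 1 then θ' (n + 1) else 1) = 1 := by
          simp [lin]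
        simp only [this, mul_one]
        apply Finset.prod_congr rfl
        intro l hl
        simp only [if_pos (Finset.mem_range.1 hl)]
      rw [hpr]
      apply eq_of_infinite_eval_eq
      apply Set.Infinite.mono (s := ({1}ᶜ : Set ℝ))
      · intro x hx
        have hx1 : 1 - x ≠ 0 := by
          intro h
          apply hx
          simp only [Set.mem_singleton_iff]
          linarith
        have key := hid (x / (1 - x))
        have f0 : ∀ t : ℝ, x / (1 - x) + t = (t + (1 - t) * x) / (1 - x) := by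
          intro t
          field_simp
          ring
        have elin : ∀ t : ℝ, eval x (lin (1 - t) t) = t + (1 - t) * x := by
          intro t; simp [lin]
        simp only [f0, Finset.prod_div_distrib, Finset.prod_const, card_range] at key
        have hsum : ∑ l ∈ range (n + 1), (∏ m ∈ (range (n + 1)).erase l, (θ m + (1 - θ m) * x)) /
            (1 - x) ^ ((range (n + 1)).erase l).card
            = (∑ l ∈ range (n + 1), ∏ m ∈ (range (n + 1)).erase l, (θ m + (1 - θ m) * x))
              / (1 - x) ^ n := by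
          rw [Finset.sum_div]
          apply Finset.sum_congr rfl
          intro l hl
          rw [Finset.card_erase_of_mem hl, card_range]
          rfl
        rw [hsum] at key
        have key2 : c * ∏ l ∈ range (n + 1), (θ l + (1 - θ l) * x)
            + x * ∑ l ∈ range (n + 1), ∏ m ∈ (range (n + 1)).erase l, (θ m + (1 - θ m) * x)
            = (c + n + 1) * ∏ l ∈ range (n + 1), (θ' l + (1 - θ' l) * x) := by
          have hp : (1 - x) ^ (n + 1) ≠ 0 := pow_ne_zero _ hx1
          have e1 := congrArg (fun t => t * (1 - x) ^ (n + 1)) key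
          simp only at e1
          rw [aux1 _ _ _ _ _ hx1, aux2 _ _ _ hx1] at e1
          exact e1
        show eval x _ = eval x _
        simp only [eval_mul, eval_add, eval_C, eval_X, pr, D1, eval_prod, eval_finsetSum, elin]
        rw [key2]
        ring
      · exact (Set.finite_singleton (1 : ℝ)).infinite_compl

end

end Pool.Agent.EulerTP3
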